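import Mathlib

/-!
Definitions: quasiregular maps, branch sets and Nagata dimension.
-/

set_option autoImplicit false

open MeasureTheory Set
open scoped ContDiff

namespace Pool.Agent.Lib.MP_00e59b_an

/-- Euclidean space of dimension `n`. -/
abbrev E (n : ℕ) := EuclideanSpace ℝ (Fin n)

/-- `g` is the weak (distributional) derivative of `f : Ω → ℝⁿ` in the open set `Ω`: both are
locally integrable on `Ω` and `∫ (∂_v φ) f = - ∫ φ (g v)` for every test function
`φ ∈ C_c^∞(Ω)` and every vector `v`. -/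
structure HasWeakDeriv {n : ℕ} (Ω : Set (E n)) (f : E n → E n) (g : E n → E n →L[ℝ] E n) :
    Prop where
  locallyIntegrableOn : LocallyIntegrableOn f Ω volume
  locallyIntegrableOn_deriv : LocallyIntegrableOn g Ω volume
  integral_eq : ∀ φ : E n → ℝ, ContDiff ℝ ∞ φ → HasCompactSupport φ → tsupport φ ⊆ Ω →
    ∀ v : E n, ∫ x, fderiv ℝ φ x v • f x = - ∫ x, φ x • g x v

/-- `f : Ω → ℝⁿ` is quasiregular: `f` is continuous on `Ω`, `f ∈ W^{1,n}_loc(Ω; ℝⁿ)` with weak
derivative `Df`, and for some `K ≥ 1` one has `|Df(x)|^n ≤ K det (Df(x))` for almost every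
`x ∈ Ω`, where `|Df(x)|` is the operator norm. -/
def IsQuasiregular {n : ℕ} (Ω : Set (E n)) (f : E n → E n) : Prop :=
  ContinuousOn f Ω ∧ ∃ Df : E n → E n →L[ℝ] E n,
    HasWeakDeriv Ω f Df ∧
    LocallyIntegrableOn (fun x => ‖f x‖ ^ n) Ω volume ∧
    LocallyIntegrableOn (fun x => ‖Df x‖ ^ n) Ω volume ∧
    ∃ K : ℝ, 1 ≤ K ∧ ∀ᵐ x ∂(volume.restrict Ω), ‖Df x‖ ^ n ≤ K * (Df x).det

/-- The branch set of `f : Ω → ℝⁿ`: the points of `Ω` at which `f` is not a local
homeomorphism, i.e. which have no open neighbourhood in `Ω` that `f` maps homeomorphically onto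
an open set. -/
def branchSet {n : ℕ} (Ω : Set (E n)) (f : E n → E n) : Set (E n) :=
  {x ∈ Ω | ¬ ∃ e : OpenPartialHomeomorph (E n) (E n),
    x ∈ e.source ∧ e.source ⊆ Ω ∧ EqOn f e e.source}

/-- `X` has Nagata (Assouad–Nagata) dimension at most `d`: for some `c > 0` and every `s > 0`
there is a cover of `X` by sets of diameter at most `c s` such that every subset of `X` of
diameter at most `s` meets at most `d + 1` members of the cover. -/
def NagataDimLE {M : Type*} [PseudoEMetricSpace M] (X : Set M) (d : ℕ) : Prop :=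
  ∃ c : ℝ, 0 < c ∧ ∀ s : ℝ, 0 < s → ∃ 𝒞 : Set (Set M),
    X ⊆ ⋃₀ 𝒞 ∧
    (∀ C ∈ 𝒞, Metric.ediam C ≤ ENNReal.ofReal (c * s)) ∧
    ∀ Y ⊆ X, Metric.ediam Y ≤ ENNReal.ofReal s →
      {C ∈ 𝒞 | (C ∩ Y).Nonempty}.encard ≤ d + 1

/-- The Nagata dimension of `X`: the least `d ≥ 0` with `NagataDimLE X d` (`∞` if there is no
such `d`). -/
noncomputable def nagataDim {M : Type*} [PseudoEMetricSpace M] (X : Set M) : ℕ∞ :=
  ⨅ (d : ℕ) (_ : NagataDimLE X d), (d : ℕ∞)

/-- The Nagata dimension is monotone in the bound. -/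
lemma NagataDimLE.mono_dim {M : Type*} [PseudoEMetricSpace M] {X : Set M} {d e : ℕ}
    (h : NagataDimLE X d) (hde : d ≤ e) : NagataDimLE X e := by
  obtain ⟨c, hc, H⟩ := h
  refine ⟨c, hc, fun s hs => ?_⟩
  obtain ⟨𝒞, h1, h2, h3⟩ := H s hs
  refine ⟨𝒞, h1, h2, fun Y hY hd => (h3 Y hY hd).trans ?_⟩
  gcongr

/-- The Nagata dimension is monotone in the set. -/
lemma NagataDimLE.mono_set {M : Type*} [PseudoEMetricSpace M] {X Y : Set M} {d : ℕ}
    (h : NagataDimLE X d) (hXY : Y ⊆ X) : NagataDimLE Y d := by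
  obtain ⟨c, hc, H⟩ := h
  refine ⟨c, hc, fun s hs => ?_⟩
  obtain ⟨𝒞, h1, h2, h3⟩ := H s hs
  exact ⟨𝒞, hXY.trans h1, h2, fun Z hZ hd => h3 Z (hZ.trans hXY) hd⟩

lemma le_nagataDim_of_not {M : Type*} [PseudoEMetricSpace M] {X : Set M} {d : ℕ}
    (h : ¬ NagataDimLE X d) : (d + 1 : ℕ∞) ≤ nagataDim X := by
  refine le_iInf₂ fun e he => ?_
  have : d < e := by
    by_contra hlt
    exact h (he.mono_dim (not_lt.mp hlt))
  exact_mod_cast this

end Pool.Agent.Lib.MP_00e59b_an
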