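import Mathlib

/-!
Two planar maps: the winding map `w ↦ w ^ 2 / |w|` and a holomorphic immersion of a strip.
-/

set_option autoImplicit false

open Set

namespace Pool.Agent.Lib.MP_00e59b_an

/-- The planar winding map of degree two. -/
noncomputable def om (w : ℂ) : ℂ := w ^ 2 / (‖w‖ : ℂ)

lemma om_zero : om 0 = 0 := by simp [om]

lemma norm_om (w : ℂ) : ‖om w‖ = ‖w‖ := by
  by_cases h : w = 0
  · simp [h, om]
  · have h1 : ‖w‖ ≠ 0 := norm_ne_zero_iff.mpr h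
    unfold om
    rw [norm_div, norm_pow, Complex.norm_real, norm_norm]
    field_simp

lemma om_neg (w : ℂ) : om (-w) = om w := by
  unfold om
  rw [norm_neg, neg_sq]

lemma om_lip_aux (w v : ℂ) (hw : w ≠ 0) (hv : v ≠ 0) (h : ‖v‖ ≤ ‖w‖) :
    ‖om w - om v‖ ≤ 3 * ‖w - v‖ := by
  have h1 : 0 < ‖w‖ := norm_pos_iff.mpr hw
  have h2 : 0 < ‖v‖ := norm_pos_iff.mpr hv
  have h1' : (‖w‖ : ℂ) ≠ 0 := by exact_mod_cast h1.ne'
  have h2' : (‖v‖ : ℂ) ≠ 0 := by exact_mod_cast h2.ne'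
  have e : om w - om v = ((w - v) * (w + v) * ‖v‖ + v ^ 2 * ((‖v‖ : ℂ) - ‖w‖)) /
      (‖w‖ * ‖v‖) := by
    unfold om
    field_simp
    ring
  rw [e, norm_div, norm_mul, Complex.norm_real, Complex.norm_real, norm_norm, norm_norm,
    div_le_iff₀ (by positivity)]
  have e1 : ‖(w - v) * (w + v) * ‖v‖ + v ^ 2 * ((‖v‖ : ℂ) - ‖w‖)‖ ≤
      ‖w - v‖ * ‖w + v‖ * ‖v‖ + ‖v‖ ^ 2 * ‖w - v‖ := by
    refine (norm_add_le _ _).trans ?_
    rw [norm_mul, norm_mul, norm_mul, norm_pow, Complex.norm_real, norm_norm,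
      ← Complex.ofReal_sub, Complex.norm_real, Real.norm_eq_abs]
    gcongr
    rw [norm_sub_rev w v]
    exact abs_norm_sub_norm_le v w
  refine e1.trans ?_
  have e2 : ‖w + v‖ ≤ 2 * ‖w‖ := by
    have := norm_add_le w v
    linarith
  have e3 : ‖w - v‖ * ‖w + v‖ * ‖v‖ ≤ ‖w - v‖ * (2 * ‖w‖) * ‖v‖ := by gcongr
  have e4 : ‖v‖ ^ 2 * ‖w - v‖ ≤ ‖w‖ * ‖v‖ * ‖w - v‖ := by
    rw [sq]
    gcongr
  nlinarith

lemma om_lip (w v : ℂ) : ‖om w - om v‖ ≤ 3 * ‖w - v‖ := by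
  by_cases hw : w = 0
  · subst hw
    rw [om_zero, zero_sub, zero_sub, norm_neg, norm_neg, norm_om]
    have := norm_nonneg v
    linarith
  by_cases hv : v = 0
  · subst hv
    rw [om_zero, sub_zero, sub_zero, norm_om]
    have := norm_nonneg w
    linarith
  rcases le_total ‖v‖ ‖w‖ with h | h
  · exact om_lip_aux w v hw hv h
  · rw [norm_sub_rev, norm_sub_rev w v]
    exact om_lip_aux v w hv hw h

/-- A holomorphic immersion of the strip whose restriction to the real line is a dense curve in an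
annulus. -/
noncomputable def Q (z : ℂ) : ℂ :=
  Complex.exp (z * Complex.I) + (1 / 4) * Complex.exp ((√2 : ℝ) * z * Complex.I)

/-- The derivative of `Q`. -/
noncomputable def Q' (z : ℂ) : ℂ :=
  Complex.I * Complex.exp (z * Complex.I) +
    (√2 / 4 : ℝ) * Complex.I * Complex.exp ((√2 : ℝ) * z * Complex.I)

lemma hasDerivAt_Q (z : ℂ) : HasDerivAt Q (Q' z) z := by
  have h1 : HasDerivAt (fun z : ℂ => z * Complex.I) (1 * Complex.I) z :=
    (hasDerivAt_id z).mul_const _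
  have h2 : HasDerivAt (fun z : ℂ => (√2 : ℝ) * z * Complex.I) ((√2 : ℝ) * 1 * Complex.I) z :=
    ((hasDerivAt_id z).const_mul _).mul_const _
  have h3 := h1.cexp.add (h2.cexp.const_mul (1 / 4 : ℂ))
  refine h3.congr_deriv ?_
  unfold Q'
  push_cast
  ring

lemma sqrt_two_lt : √2 < 3 / 2 := by
  rw [Real.sqrt_lt' (by norm_num)]
  norm_num

lemma one_lt_sqrt_two : 1 < √2 := by
  rw [Real.lt_sqrt (by norm_num)]
  norm_num

lemma norm_exp_mul_I (z : ℂ) : ‖Complex.exp (z * Complex.I)‖ = Real.exp (-z.im) := by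
  rw [Complex.norm_exp]
  simp

lemma norm_exp_mul_I' (z : ℂ) :
    ‖Complex.exp ((√2 : ℝ) * z * Complex.I)‖ = Real.exp (-(√2 * z.im)) := by
  rw [Complex.norm_exp]
  simp

lemma norm_Q'_le {z : ℂ} (hz : |z.im| ≤ 1) : ‖Q' z‖ ≤ 10 := by
  unfold Q'
  refine (norm_add_le _ _).trans ?_
  rw [norm_mul, norm_mul, norm_mul, Complex.norm_I, norm_exp_mul_I, norm_exp_mul_I',
    Complex.norm_real, Real.norm_eq_abs, abs_of_pos (by positivity)]
  have h1 := abs_le.mp hz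
  have h2 : Real.exp (-z.im) ≤ Real.exp 1 := Real.exp_le_exp.mpr (by linarith)
  have h3 : Real.exp (-(√2 * z.im)) ≤ Real.exp 2 := by
    apply Real.exp_le_exp.mpr
    have := sqrt_two_lt
    have := one_lt_sqrt_two
    nlinarith
  have h4 : Real.exp 1 < 3 := by
    have := Real.exp_one_lt_d9
    linarith
  have h5 : Real.exp 2 < 9 := by
    have : Real.exp 2 = Real.exp 1 * Real.exp 1 := by rw [← Real.exp_add]; norm_num
    rw [this]
    have h0 := Real.exp_pos 1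
    nlinarith
  have h6 := sqrt_two_lt
  have h7 : √2 / 4 * 1 * Real.exp (-(√2 * z.im)) ≤ (3 / 2) / 4 * 1 * 9 := by
    gcongr
    linarith
  linarith

lemma le_norm_Q' {z : ℂ} (hz : |z.im| ≤ 1) : Real.exp (-1) / 4 ≤ ‖Q' z‖ := by
  have h1 := abs_le.mp hz
  have e1 : Complex.I * Complex.exp (z * Complex.I) =
      Q' z - (√2 / 4 : ℝ) * Complex.I * Complex.exp ((√2 : ℝ) * z * Complex.I) := by
    unfold Q'
    ring
  have e2 : ‖Complex.I * Complex.exp (z * Complex.I)‖ ≤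
      ‖Q' z‖ + ‖(√2 / 4 : ℝ) * Complex.I * Complex.exp ((√2 : ℝ) * z * Complex.I)‖ := by
    rw [e1]
    exact norm_sub_le _ _
  rw [norm_mul, norm_mul, norm_mul, Complex.norm_I, norm_exp_mul_I, norm_exp_mul_I',
    Complex.norm_real, Real.norm_eq_abs, abs_of_pos (by positivity)] at e2
  have h6 := sqrt_two_lt
  have h6' := one_lt_sqrt_two
  -- `exp (-√2 y) = exp (-y) * exp (-(√2 - 1) y) ≤ 2 * exp (-y)`
  have e3 : Real.exp (-(√2 * z.im)) ≤ 2 * Real.exp (-z.im) := by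
    have : Real.exp (-(√2 * z.im)) = Real.exp (-((√2 - 1) * z.im)) * Real.exp (-z.im) := by
      rw [← Real.exp_add]
      ring_nf
    rw [this]
    gcongr
    have h7 : Real.exp (-((√2 - 1) * z.im)) ≤ Real.exp (1 / 2) := by
      apply Real.exp_le_exp.mpr
      nlinarith
    have h8 : Real.exp (1 / 2) ≤ 2 := by
      have h9 : Real.exp (1 / 2) * Real.exp (1 / 2) < 3 := by
        rw [← Real.exp_add]
        have := Real.exp_one_lt_d9
        norm_num
        linarith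
      have h0 := Real.exp_pos (1 / 2)
      nlinarith
    exact h7.trans h8
  have e4 : √2 / 4 * 1 * Real.exp (-(√2 * z.im)) ≤ (3 / 2) / 4 * 1 * (2 * Real.exp (-z.im)) := by
    gcongr
  have e5 : Real.exp (-1) ≤ Real.exp (-z.im) := Real.exp_le_exp.mpr (by linarith)
  linarith

lemma Q_lip {z w : ℂ} (hz : |z.im| ≤ 1) (hw : |w.im| ≤ 1) : ‖Q z - Q w‖ ≤ 10 * ‖z - w‖ := by
  have hconv : Convex ℝ {z : ℂ | |z.im| ≤ 1} := by
    have : {z : ℂ | |z.im| ≤ 1} = Complex.imLm ⁻¹' (Icc (-1) 1) := by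
      ext z
      simp [abs_le]
    rw [this]
    exact (convex_Icc (-1 : ℝ) 1).linear_preimage _
  exact hconv.norm_image_sub_le_of_norm_hasDerivWithin_le
    (fun z _ => (hasDerivAt_Q z).hasDerivWithinAt) (fun z hz => norm_Q'_le hz) hw hz

end Pool.Agent.Lib.MP_00e59b_an
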