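import Mathlib
import Pool.Agent.Lib.MP_00e59b_an.Defs
import Pool.Agent.Lib.MP_00e59b_an.Planar

/-!
The map `ff : Om → ℝ³` of the counterexample, and its Lipschitz estimate.
-/

set_option autoImplicit false

open MeasureTheory Set
open scoped ContDiff

namespace Pool.Agent.Lib.MP_00e59b_an

/-- The last two coordinates of a point of `ℝ³`, as a complex number. -/
noncomputable def ww (x : E 3) : ℂ := ⟨x 1, x 2⟩

lemma norm_ww (x : E 3) : ‖ww x‖ = √(x 1 ^ 2 + x 2 ^ 2) := by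
  rw [Complex.norm_def, Complex.normSq_mk]
  simp [ww, sq]

/-- The real part of the winding map. -/
noncomputable def uu (x : E 3) : ℝ := (om (ww x)).re

/-- The imaginary part of the winding map. -/
noncomputable def vv (x : E 3) : ℝ := (om (ww x)).im

lemma uu_eq (x : E 3) : uu x = (x 1 ^ 2 - x 2 ^ 2) / √(x 1 ^ 2 + x 2 ^ 2) := by
  unfold uu om
  rw [norm_ww, Complex.div_ofReal_re]
  simp [ww, sq]

lemma vv_eq (x : E 3) : vv x = (2 * x 1 * x 2) / √(x 1 ^ 2 + x 2 ^ 2) := by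
  unfold vv om
  rw [norm_ww, Complex.div_ofReal_im]
  simp [ww, sq]
  ring_nf

/-- The argument of `Q` in the definition of `ff`. -/
noncomputable def zeta (x : E 3) : ℂ := ⟨x 0, uu x⟩

/-- The quasiregular map. -/
noncomputable def ff (x : E 3) : E 3 := !₂[(Q (zeta x)).re, (Q (zeta x)).im, vv x]

/-- The domain: a solid cylinder. -/
def Om : Set (E 3) := {x | ‖ww x‖ < 1}

lemma ww_lip (x y : E 3) : ‖ww x - ww y‖ ^ 2 = (x 1 - y 1) ^ 2 + (x 2 - y 2) ^ 2 := by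
  rw [← Complex.normSq_eq_norm_sq, Complex.normSq_apply]
  simp [ww, sq]

lemma norm_sub_sq (x y : E 3) :
    ‖x - y‖ ^ 2 = (x 0 - y 0) ^ 2 + (x 1 - y 1) ^ 2 + (x 2 - y 2) ^ 2 := by
  rw [EuclideanSpace.norm_sq_eq, Fin.sum_univ_three]
  simp

lemma continuous_ww : Continuous ww := by
  have : ww = fun x : E 3 => (x 1 : ℂ) + (x 2 : ℂ) * Complex.I := by
    funext x
    apply Complex.ext <;> simp [ww]
  rw [this]
  fun_prop

lemma isOpen_Om : IsOpen Om := isOpen_lt continuous_ww.norm continuous_const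

lemma convex_Om : Convex ℝ Om := by
  intro x hx y hy a b ha hb hab
  have e : ww (a • x + b • y) = a • ww x + b • ww y := by
    apply Complex.ext <;> simp [ww]
  have hx' : ‖ww x‖ < 1 := hx
  have hy' : ‖ww y‖ < 1 := hy
  change ‖ww (a • x + b • y)‖ < 1
  rw [e]
  have h1 : ww x ∈ Metric.ball (0 : ℂ) 1 := by simpa using hx'
  have h2 : ww y ∈ Metric.ball (0 : ℂ) 1 := by simpa using hy'
  have h3 := convex_ball (0 : ℂ) 1 h1 h2 ha hb hab
  simpa using h3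

lemma zero_mem_Om : (0 : E 3) ∈ Om := by
  simp [Om, ww, Complex.norm_def, Complex.normSq]

lemma isConnected_Om : IsConnected Om :=
  ⟨⟨0, zero_mem_Om⟩, convex_Om.isPreconnected⟩

lemma abs_uu_le {x : E 3} (hx : x ∈ Om) : |uu x| ≤ 1 := by
  have h1 : ‖ww x‖ < 1 := hx
  have h2 := Complex.abs_re_le_norm (om (ww x))
  rw [norm_om] at h2
  unfold uu
  linarith

lemma ff_lip_aux {x y : E 3} (hx : x ∈ Om) (hy : y ∈ Om) : ‖ff x - ff y‖ ≤ 30 * ‖x - y‖ := by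
  have h1 : ‖ff x - ff y‖ ^ 2 = ‖Q (zeta x) - Q (zeta y)‖ ^ 2 + (vv x - vv y) ^ 2 := by
    rw [norm_sub_sq, ← Complex.normSq_eq_norm_sq, Complex.normSq_apply]
    simp [ff, sq]
  have h2 : ‖Q (zeta x) - Q (zeta y)‖ ≤ 10 * ‖zeta x - zeta y‖ :=
    Q_lip (abs_uu_le hx) (abs_uu_le hy)
  have h3 : ‖zeta x - zeta y‖ ^ 2 = (x 0 - y 0) ^ 2 + (uu x - uu y) ^ 2 := by
    rw [← Complex.normSq_eq_norm_sq, Complex.normSq_apply]
    simp [zeta, sq]
  have h4 : (uu x - uu y) ^ 2 + (vv x - vv y) ^ 2 = ‖om (ww x) - om (ww y)‖ ^ 2 := by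
    rw [← Complex.normSq_eq_norm_sq, Complex.normSq_apply]
    simp [uu, vv, sq]
  have h5 := om_lip (ww x) (ww y)
  have h6 := ww_lip x y
  have h7 := norm_sub_sq x y
  have h8 : ‖Q (zeta x) - Q (zeta y)‖ ^ 2 ≤ (10 * ‖zeta x - zeta y‖) ^ 2 := by gcongr
  have h9 : ‖om (ww x) - om (ww y)‖ ^ 2 ≤ (3 * ‖ww x - ww y‖) ^ 2 := by gcongr
  rw [mul_pow, h3] at h8
  rw [mul_pow, h6, ← h4] at h9
  have h10 : ‖ff x - ff y‖ ^ 2 ≤ (30 * ‖x - y‖) ^ 2 := by
    rw [h1, mul_pow, h7]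
    nlinarith [sq_nonneg (x 0 - y 0), sq_nonneg (vv x - vv y)]
  exact abs_le_of_sq_le_sq' h10 (by positivity) |>.2

lemma ff_lip : LipschitzOnWith 30 ff Om := by
  refine LipschitzOnWith.of_dist_le_mul fun x hx y hy => ?_
  rw [dist_eq_norm, dist_eq_norm]
  exact ff_lip_aux hx hy

end Pool.Agent.Lib.MP_00e59b_an
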