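import Mathlib
import Pool.Agent.Lib.MP_00e59b_an.TheMap

/-!
The axis consists of branch points of `ff`, and its image is dense in a planar annulus.
-/

set_option autoImplicit false

open Set

namespace Pool.Agent.Lib.MP_00e59b_an

/-- The point `(t, a, b)`. -/
noncomputable def pt (t a b : ℝ) : E 3 := !₂[t, a, b]

lemma pt_zero (t a b : ℝ) : (pt t a b) 0 = t := rfl
lemma pt_one (t a b : ℝ) : (pt t a b) 1 = a := rfl
lemma pt_two (t a b : ℝ) : (pt t a b) 2 = b := rfl

lemma ff_pt_neg (t b : ℝ) : ff (pt t 0 (-b)) = ff (pt t 0 b) := by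
  have h1 : ww (pt t 0 (-b)) = - ww (pt t 0 b) := by
    apply Complex.ext <;> simp [ww, pt_one, pt_two]
  have h2 : uu (pt t 0 (-b)) = uu (pt t 0 b) := by
    unfold uu
    rw [h1, om_neg]
  have h3 : vv (pt t 0 (-b)) = vv (pt t 0 b) := by
    unfold vv
    rw [h1, om_neg]
  have h4 : zeta (pt t 0 (-b)) = zeta (pt t 0 b) := by
    unfold zeta
    rw [h2, pt_zero, pt_zero]
  unfold ff
  rw [h3, h4]

lemma pt_axis_mem (t : ℝ) : pt t 0 0 ∈ Om := by
  have : ww (pt t 0 0) = 0 := by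
    apply Complex.ext <;> simp [ww, pt_one, pt_two]
  change ‖ww (pt t 0 0)‖ < 1
  rw [this]
  simp

lemma dist_pt (t b : ℝ) : dist (pt t 0 b) (pt t 0 0) = |b| := by
  rw [EuclideanSpace.dist_eq, Fin.sum_univ_three]
  simp only [pt_zero, pt_one, pt_two, dist_self, Real.dist_eq, sub_zero, sq_abs]
  simp [Real.sqrt_sq_eq_abs]

/-- Every point of the axis is a branch point. -/
lemma axis_mem_branchSet (t : ℝ) : pt t 0 0 ∈ branchSet Om ff := by
  refine ⟨pt_axis_mem t, ?_⟩
  rintro ⟨e, hmem, -, heq⟩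
  obtain ⟨r, hr, hball⟩ := Metric.isOpen_iff.mp e.open_source _ hmem
  have h1 : pt t 0 (r / 2) ∈ e.source := by
    apply hball
    rw [Metric.mem_ball, dist_pt, abs_of_pos (by positivity)]
    linarith
  have h2 : pt t 0 (-(r / 2)) ∈ e.source := by
    apply hball
    rw [Metric.mem_ball, dist_pt, abs_neg, abs_of_pos (by positivity)]
    linarith
  have h3 : e (pt t 0 (-(r / 2))) = e (pt t 0 (r / 2)) := by
    rw [← heq h2, ← heq h1, ff_pt_neg]
  have h4 := e.injOn h2 h1 h3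
  have h5 := congrArg (fun x : E 3 => x 2) h4
  simp only [pt_two] at h5
  linarith

lemma ff_axis (t : ℝ) : ff (pt t 0 0) = pt (Q t).re (Q t).im 0 := by
  have h1 : ww (pt t 0 0) = 0 := by
    apply Complex.ext <;> simp [ww, pt_one, pt_two]
  have h2 : uu (pt t 0 0) = 0 := by
    unfold uu
    rw [h1, om_zero]
    rfl
  have h3 : vv (pt t 0 0) = 0 := by
    unfold vv
    rw [h1, om_zero]
    rfl
  have h4 : zeta (pt t 0 0) = (t : ℂ) := by
    unfold zeta
    rw [h2, pt_zero]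
    rfl
  unfold ff
  rw [h3, h4]
  rfl

/-- Kronecker: `(t, √2 t)` is dense modulo `2 π`. -/
lemma kronecker (θ φ δ : ℝ) (hδ : 0 < δ) :
    ∃ t : ℝ, Complex.exp (t * Complex.I) = Complex.exp (θ * Complex.I) ∧
      ‖Complex.exp ((√2 : ℝ) * t * Complex.I) - Complex.exp (φ * Complex.I)‖ < δ := by
  have hdense : Dense ((AddSubgroup.closure {√2, 1} : AddSubgroup ℝ) : Set ℝ) := by
    rw [dense_addSubgroupClosure_pair_iff, div_one]
    exact irrational_sqrt_two
  have hpi := Real.pi_pos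
  obtain ⟨y, hy, hyd⟩ := Metric.dense_iff.mp hdense ((φ - √2 * θ) / (2 * Real.pi))
    (δ / (2 * Real.pi)) (by positivity)
  rw [SetLike.mem_coe, AddSubgroup.mem_closure_pair] at hyd
  obtain ⟨k, l, hkl⟩ := hyd
  rw [Metric.mem_ball, Real.dist_eq] at hy
  refine ⟨θ + k * (2 * Real.pi), ?_, ?_⟩
  · have : ((θ + k * (2 * Real.pi) : ℝ) : ℂ) * Complex.I =
        θ * Complex.I + k * (2 * Real.pi * Complex.I) := by
      push_cast
      ring
    rw [this, Complex.exp_add, Complex.exp_int_mul_two_pi_mul_I, mul_one]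
  · set s : ℝ := √2 * θ + 2 * Real.pi * y with hs
    have h1 : ((√2 : ℝ) : ℂ) * ((θ + k * (2 * Real.pi) : ℝ) : ℂ) * Complex.I =
        (s : ℝ) * Complex.I - l * (2 * Real.pi * Complex.I) := by
      have hy' : y = k * √2 + l := by
        rw [← hkl]
        simp
      rw [hs, hy']
      push_cast
      ring
    have h2 : Complex.exp (((√2 : ℝ) : ℂ) * ((θ + k * (2 * Real.pi) : ℝ) : ℂ) * Complex.I) =
        Complex.exp ((s : ℝ) * Complex.I) := by
      rw [h1, Complex.exp_sub, Complex.exp_int_mul_two_pi_mul_I, div_one]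
    rw [h2]
    have h3 : Complex.exp ((s : ℝ) * Complex.I) - Complex.exp (φ * Complex.I) =
        Complex.exp (φ * Complex.I) * (Complex.exp (Complex.I * ((s - φ : ℝ) : ℂ)) - 1) := by
      rw [mul_sub, ← Complex.exp_add, mul_one]
      congr 2
      push_cast
      ring
    rw [h3, norm_mul, Complex.norm_exp_ofReal_mul_I, one_mul]
    refine (Real.norm_exp_I_mul_ofReal_sub_one_le).trans_lt ?_
    rw [Real.norm_eq_abs]
    have h4 : s - φ = (2 * Real.pi) * (y - (φ - √2 * θ) / (2 * Real.pi)) := by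
      rw [hs]
      field_simp
      ring
    rw [h4, abs_mul, abs_of_pos (by positivity : (0 : ℝ) < 2 * Real.pi)]
    rw [lt_div_iff₀ (by positivity)] at hy
    linarith

/-- The curve `Q(ℝ)` is dense in a neighbourhood of `1`. -/
lemma curve_dense {z : ℂ} (h1 : ‖z - 1‖ ≤ 1 / 4) (h2 : 1 / 4 ≤ ‖z + 1‖) {δ : ℝ} (hδ : 0 < δ) :
    ∃ t : ℝ, ‖Q t - z‖ < δ := by
  -- the circle of radius `1/4` around `z` meets the unit circle
  have hcont : Continuous fun θ : ℝ => ‖z - Complex.exp (θ * Complex.I)‖ := by fun_prop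
  have hθ : (1 / 4 : ℝ) ∈ range fun θ : ℝ => ‖z - Complex.exp (θ * Complex.I)‖ := by
    apply mem_range_of_exists_le_of_exists_ge hcont
    · refine ⟨0, ?_⟩
      simpa using h1
    · refine ⟨Real.pi, ?_⟩
      simpa using h2
  obtain ⟨θ, hθ⟩ := hθ
  simp only at hθ
  -- the direction
  obtain ⟨φ, hφ⟩ : ∃ φ : ℝ,
      z = Complex.exp (θ * Complex.I) + 1 / 4 * Complex.exp (φ * Complex.I) := by
    refine ⟨Complex.arg (z - Complex.exp (θ * Complex.I)), ?_⟩
    have h := Complex.norm_mul_exp_arg_mul_I (z - Complex.exp (θ * Complex.I))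
    rw [hθ] at h
    push_cast at h
    rw [h]
    ring
  obtain ⟨t, ht1, ht2⟩ := kronecker θ φ δ hδ
  refine ⟨t, ?_⟩
  unfold Q
  rw [ht1, hφ]
  have e : Complex.exp (θ * Complex.I) + 1 / 4 * Complex.exp ((√2 : ℝ) * t * Complex.I) -
      (Complex.exp (θ * Complex.I) + 1 / 4 * Complex.exp (φ * Complex.I)) =
      1 / 4 * (Complex.exp ((√2 : ℝ) * t * Complex.I) - Complex.exp (φ * Complex.I)) := by ring
  rw [e, norm_mul]
  have e2 : ‖(1 / 4 : ℂ)‖ = 1 / 4 := by norm_num
  rw [e2]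
  have := norm_nonneg (Complex.exp ((√2 : ℝ) * t * Complex.I) - Complex.exp (φ * Complex.I))
  linarith

/-- The closure of the image of the branch set contains a square. -/
lemma square_subset_closure {u v : ℝ} (hu : u ∈ Icc (0 : ℝ) (1 / 8))
    (hv : v ∈ Icc (0 : ℝ) (1 / 8)) :
    pt (1 + u) v 0 ∈ closure (ff '' branchSet Om ff) := by
  rw [Metric.mem_closure_iff]
  intro δ hδ
  have h1 : ‖(⟨1 + u, v⟩ : ℂ) - 1‖ ≤ 1 / 4 := by
    have e := Complex.norm_le_abs_re_add_abs_im ((⟨1 + u, v⟩ : ℂ) - 1)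
    simp only [Complex.sub_re, Complex.one_re, Complex.sub_im, Complex.one_im, sub_zero,
      add_sub_cancel_left] at e
    rw [abs_of_nonneg hu.1, abs_of_nonneg hv.1] at e
    linarith [hu.2, hv.2]
  have h2 : 1 / 4 ≤ ‖(⟨1 + u, v⟩ : ℂ) + 1‖ := by
    have e := Complex.abs_re_le_norm ((⟨1 + u, v⟩ : ℂ) + 1)
    simp only [Complex.add_re, Complex.one_re] at e
    rw [abs_of_nonneg (by linarith [hu.1])] at e
    linarith [hu.1]
  obtain ⟨t, ht⟩ := curve_dense h1 h2 hδ
  refine ⟨ff (pt t 0 0), mem_image_of_mem _ (axis_mem_branchSet t), ?_⟩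
  rw [ff_axis, EuclideanSpace.dist_eq, Fin.sum_univ_three]
  simp only [pt_zero, pt_one, pt_two, dist_self, Real.dist_eq, sq_abs]
  rw [norm_sub_rev, Complex.norm_def, Complex.normSq_apply] at ht
  simp only [Complex.sub_re, Complex.sub_im] at ht
  convert ht using 2
  ring

end Pool.Agent.Lib.MP_00e59b_an
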