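import Mathlib
import Pool.Agent.Lib.MP_00e59b_an.TheMap

/-!
The differential of the map `ff` off the axis and its determinant.
-/

set_option autoImplicit false

open MeasureTheory Set
open scoped ContDiff

namespace Pool.Agent.Lib.MP_00e59b_an

/-- Coordinate projections. -/
noncomputable abbrev pr (i : Fin 3) : E 3 →L[ℝ] ℝ := EuclideanSpace.proj i

/-- Unit vectors. -/
noncomputable abbrev ee (i : Fin 3) : E 3 := EuclideanSpace.single i 1

lemma pr_ee (i j : Fin 3) : pr i (ee j) = if i = j then 1 else 0 := by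
  simp [pr, ee]

lemma hasFDerivAt_sumsq (x : E 3) :
    HasFDerivAt (fun x : E 3 => x 1 ^ 2 + x 2 ^ 2)
      ((2 * x 1) • pr 1 + (2 * x 2) • pr 2) x := by
  have h1 : HasFDerivAt (fun x : E 3 => x 1) (pr 1) x := (pr 1).hasFDerivAt
  have h2 : HasFDerivAt (fun x : E 3 => x 2) (pr 2) x := (pr 2).hasFDerivAt
  have h := (h1.pow 2).add (h2.pow 2)
  refine h.congr_fderiv ?_
  simp

lemma hasFDerivAt_diffsq (x : E 3) :
    HasFDerivAt (fun x : E 3 => x 1 ^ 2 - x 2 ^ 2)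
      ((2 * x 1) • pr 1 - (2 * x 2) • pr 2) x := by
  have h1 : HasFDerivAt (fun x : E 3 => x 1) (pr 1) x := (pr 1).hasFDerivAt
  have h2 : HasFDerivAt (fun x : E 3 => x 2) (pr 2) x := (pr 2).hasFDerivAt
  have h := (h1.pow 2).sub (h2.pow 2)
  refine h.congr_fderiv ?_
  simp

lemma hasFDerivAt_prod (x : E 3) :
    HasFDerivAt (fun x : E 3 => 2 * x 1 * x 2)
      ((2 * x 2) • pr 1 + (2 * x 1) • pr 2) x := by
  have h1 : HasFDerivAt (fun x : E 3 => x 1) (pr 1) x := (pr 1).hasFDerivAt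
  have h2 : HasFDerivAt (fun x : E 3 => x 2) (pr 2) x := (pr 2).hasFDerivAt
  have h := (h1.const_mul 2).mul h2
  refine h.congr_fderiv ?_
  ext v
  simp
  ring

/-- The distance to the axis. -/
noncomputable def rho (x : E 3) : ℝ := √(x 1 ^ 2 + x 2 ^ 2)

lemma rho_pos {x : E 3} (hx : ww x ≠ 0) : 0 < rho x := by
  unfold rho
  rw [← norm_ww]
  exact norm_pos_iff.mpr hx

lemma rho_sq (x : E 3) : rho x ^ 2 = x 1 ^ 2 + x 2 ^ 2 := by
  unfold rho
  exact Real.sq_sqrt (by positivity)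

lemma hasFDerivAt_rho {x : E 3} (hx : ww x ≠ 0) :
    HasFDerivAt rho ((rho x)⁻¹ • (x 1 • pr 1 + x 2 • pr 2)) x := by
  have h0 := rho_pos hx
  have h1 : x 1 ^ 2 + x 2 ^ 2 ≠ 0 := by
    rw [← rho_sq]
    positivity
  have h := (hasFDerivAt_sumsq x).sqrt h1
  refine h.congr_fderiv ?_
  have h2 : √(x 1 ^ 2 + x 2 ^ 2) = rho x := rfl
  rw [h2]
  ext v
  simp
  field_simp

lemma hasFDerivAt_div_rho {x : E 3} (hx : ww x ≠ 0) {c : E 3 → ℝ} {c' : E 3 →L[ℝ] ℝ}
    (hc : HasFDerivAt c c' x) :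
    HasFDerivAt (fun x => c x / rho x)
      ((rho x)⁻¹ • c' - (c x / rho x ^ 3) • (x 1 • pr 1 + x 2 • pr 2)) x := by
  have h0 := rho_pos hx
  have h1 := (hasDerivAt_inv h0.ne').comp_hasFDerivAt x (hasFDerivAt_rho hx)
  have h2 := hc.mul h1
  have h3 : (fun x => c x / rho x) = fun x => c x * ((fun y => y⁻¹) ∘ rho) x := by
    funext y
    simp [div_eq_mul_inv]
  rw [h3]
  refine h2.congr_fderiv ?_
  ext v
  simp
  field_simp
  ring

/-- The differential of `uu`. -/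
noncomputable def uu' (x : E 3) : E 3 →L[ℝ] ℝ :=
  (rho x)⁻¹ • ((2 * x 1) • pr 1 - (2 * x 2) • pr 2) -
    ((x 1 ^ 2 - x 2 ^ 2) / rho x ^ 3) • (x 1 • pr 1 + x 2 • pr 2)

/-- The differential of `vv`. -/
noncomputable def vv' (x : E 3) : E 3 →L[ℝ] ℝ :=
  (rho x)⁻¹ • ((2 * x 2) • pr 1 + (2 * x 1) • pr 2) -
    ((2 * x 1 * x 2) / rho x ^ 3) • (x 1 • pr 1 + x 2 • pr 2)

lemma hasFDerivAt_uu {x : E 3} (hx : ww x ≠ 0) : HasFDerivAt uu (uu' x) x := by
  have h := hasFDerivAt_div_rho hx (hasFDerivAt_diffsq x)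
  have h3 : uu = fun x => (x 1 ^ 2 - x 2 ^ 2) / rho x := by
    funext y
    exact uu_eq y
  rw [h3]
  exact h

lemma hasFDerivAt_vv {x : E 3} (hx : ww x ≠ 0) : HasFDerivAt vv (vv' x) x := by
  have h := hasFDerivAt_div_rho hx (hasFDerivAt_prod x)
  have h3 : vv = fun x => (2 * x 1 * x 2) / rho x := by
    funext y
    exact vv_eq y
  rw [h3]
  exact h

lemma jacobian_uv {x : E 3} (hx : ww x ≠ 0) :
    uu' x (ee 1) * vv' x (ee 2) - uu' x (ee 2) * vv' x (ee 1) = 2 := by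
  have h0 := rho_pos hx
  have h1 := rho_sq x
  simp only [uu', vv', _root_.sub_apply, _root_.smul_apply,
    _root_.add_apply, pr_ee, smul_eq_mul]
  simp only [Fin.isValue, if_false, if_true, Fin.reduceEq, mul_zero, mul_one, sub_zero, add_zero,
    zero_add, zero_sub]
  generalize x 1 = a at *
  generalize x 2 = b at *
  generalize rho x = r at *
  field_simp
  have h6 : r ^ 6 = (a ^ 2 + b ^ 2) ^ 3 := by
    rw [← h1]
    ring
  rw [h6, h1]
  ring

/-- The differential of `zeta`. -/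
noncomputable def zeta' (x : E 3) : E 3 →L[ℝ] ℂ :=
  (pr 0).smulRight (1 : ℂ) + (uu' x).smulRight Complex.I

lemma hasFDerivAt_zeta {x : E 3} (hx : ww x ≠ 0) : HasFDerivAt zeta (zeta' x) x := by
  have h0 : HasFDerivAt (fun x : E 3 => x 0) (pr 0) x := (pr 0).hasFDerivAt
  have h := (h0.smul_const (1 : ℂ)).add ((hasFDerivAt_uu hx).smul_const Complex.I)
  have h3 : zeta = fun x : E 3 => x 0 • (1 : ℂ) + uu x • Complex.I := by
    funext y
    apply Complex.ext <;> simp [zeta]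
  rw [h3]
  exact h

lemma hasFDerivAt_Qzeta {x : E 3} (hx : ww x ≠ 0) :
    HasFDerivAt (fun x => Q (zeta x)) (Q' (zeta x) • zeta' x) x := by
  have h1 := (hasDerivAt_Q (zeta x)).comp_hasFDerivAt x (hasFDerivAt_zeta hx)
  exact h1

lemma hasFDerivAt_ff0 {x : E 3} (hx : ww x ≠ 0) :
    HasFDerivAt (fun x => ff x 0) (Complex.reCLM ∘L (Q' (zeta x) • zeta' x)) x :=
  Complex.reCLM.hasFDerivAt.comp x (hasFDerivAt_Qzeta hx)

lemma hasFDerivAt_ff1 {x : E 3} (hx : ww x ≠ 0) :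
    HasFDerivAt (fun x => ff x 1) (Complex.imCLM ∘L (Q' (zeta x) • zeta' x)) x :=
  Complex.imCLM.hasFDerivAt.comp x (hasFDerivAt_Qzeta hx)

lemma hasFDerivAt_ff2 {x : E 3} (hx : ww x ≠ 0) :
    HasFDerivAt (fun x => ff x 2) (vv' x) x :=
  hasFDerivAt_vv hx

lemma differentiableAt_ff {x : E 3} (hx : ww x ≠ 0) : DifferentiableAt ℝ ff x := by
  rw [differentiableAt_euclidean]
  intro i
  fin_cases i
  · exact (hasFDerivAt_ff0 hx).differentiableAt
  · exact (hasFDerivAt_ff1 hx).differentiableAt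
  · exact (hasFDerivAt_ff2 hx).differentiableAt

lemma fderiv_ff_coord {x : E 3} (hx : ww x ≠ 0) (i : Fin 3) {L : E 3 →L[ℝ] ℝ}
    (hL : HasFDerivAt (fun x => ff x i) L x) (v : E 3) : (fderiv ℝ ff x v) i = L v := by
  have h1 : HasFDerivAt (fun x => ff x i) (pr i ∘L fderiv ℝ ff x) x :=
    (pr i).hasFDerivAt.comp x (differentiableAt_ff hx).hasFDerivAt
  rw [← h1.unique hL]
  rfl

lemma det_eq (L : E 3 →L[ℝ] E 3) : L.det = Matrix.det (Matrix.of fun i j => (L (ee j)) i) := by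
  have h := LinearMap.det_toMatrix (EuclideanSpace.basisFun (Fin 3) ℝ).toBasis
    (L : E 3 →ₗ[ℝ] E 3)
  have h2 : L.det = LinearMap.det (L : E 3 →ₗ[ℝ] E 3) := rfl
  rw [h2, ← h]
  congr 1

lemma det_fderiv_ff {x : E 3} (hx : ww x ≠ 0) :
    (fderiv ℝ ff x).det = 2 * ‖Q' (zeta x)‖ ^ 2 := by
  rw [det_eq, Matrix.det_fin_three]
  simp only [Matrix.of_apply]
  simp only [fderiv_ff_coord hx 0 (hasFDerivAt_ff0 hx), fderiv_ff_coord hx 1 (hasFDerivAt_ff1 hx),
    fderiv_ff_coord hx 2 (hasFDerivAt_ff2 hx)]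
  have hJ := jacobian_uv hx
  rw [← Complex.normSq_eq_norm_sq, Complex.normSq_apply]
  have z0 : zeta' x (ee 0) = 1 := by
    simp [zeta', uu']
  have z1 : zeta' x (ee 1) = uu' x (ee 1) * Complex.I := by
    simp [zeta']
  have z2 : zeta' x (ee 2) = uu' x (ee 2) * Complex.I := by
    simp [zeta']
  have v0 : vv' x (ee 0) = 0 := by
    simp [vv']
  simp only [ContinuousLinearMap.comp_apply, _root_.smul_apply, Complex.reCLM_apply,
    Complex.imCLM_apply, z0, z1, z2, v0, smul_eq_mul, mul_one, mul_zero]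
  simp only [Complex.mul_re, Complex.mul_im, Complex.I_re, Complex.I_im, Complex.ofReal_re,
    Complex.ofReal_im]
  linear_combination ((Q' (zeta x)).re * (Q' (zeta x)).re +
    (Q' (zeta x)).im * (Q' (zeta x)).im) * hJ

end Pool.Agent.Lib.MP_00e59b_an
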