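import Mathlib

/-!
Sperner's lemma for a triangulated square, in the form needed for lower bounds of Nagata dimension.
-/

set_option autoImplicit false

namespace Pool.Agent.Lib.MP_00e59b_an

/-- An edge of a labelled triangulation is counted when its labels are `0` and `2`. -/
def door (a b : Fin 3) : ZMod 2 :=
  if (a = 0 ∧ b = 2) ∨ (a = 2 ∧ b = 0) then 1 else 0

lemma door_triangle : ∀ a b c : Fin 3, (a = b ∨ b = c ∨ a = c) →
    door a b + door b c + door a c = 0 := by decide

lemma door_left : ∀ a b : Fin 3, a ≠ 2 → b ≠ 2 → door a b = 0 := by decide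

lemma door_top : ∀ a b : Fin 3, a ≠ 0 → b ≠ 0 → door a b = 0 := by decide

/-- The indicator of the label `0`. -/
def isZero (a : Fin 3) : ZMod 2 := if a = 0 then 1 else 0

lemma door_bottom : ∀ a b : Fin 3, a ≠ 1 → b ≠ 1 → door a b = isZero b - isZero a := by decide

lemma telescope (N : ℕ) (h : ℕ → ZMod 2) :
    ∑ j ∈ Finset.range N, (h j + h (j + 1)) = h 0 + h N := by
  have h1 : ∀ j, h j + h (j + 1) = h (j + 1) - h j := by
    intro j
    rw [sub_eq_add_neg, ZMod.neg_eq_self_mod_two, add_comm]
  simp only [h1]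
  rw [Finset.sum_range_sub, sub_eq_add_neg, ZMod.neg_eq_self_mod_two, add_comm]

/-- **Sperner's lemma** for the standard triangulation of an `N × N` square. -/
theorem sperner_square (N : ℕ) (g : ℕ → ℕ → Fin 3)
    (left : ∀ j ≤ N, g 0 j ≠ 2) (right : ∀ j ≤ N, g N j = 2)
    (bottom : ∀ i ≤ N, g i 0 ≠ 1) (top : ∀ i ≤ N, g i N ≠ 0)
    (tri₁ : ∀ i < N, ∀ j < N, g i j = g (i + 1) j ∨ g (i + 1) j = g (i + 1) (j + 1) ∨
      g i j = g (i + 1) (j + 1))
    (tri₂ : ∀ i < N, ∀ j < N, g i j = g i (j + 1) ∨ g i (j + 1) = g (i + 1) (j + 1) ∨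
      g i j = g (i + 1) (j + 1)) : False := by
  -- horizontal and vertical doors
  let h : ℕ → ℕ → ZMod 2 := fun i j => door (g i j) (g (i + 1) j)
  let v : ℕ → ℕ → ZMod 2 := fun i j => door (g i j) (g i (j + 1))
  have cell : ∀ i < N, ∀ j < N, (h i j + h i (j + 1)) + (v i j + v (i + 1) j) = 0 := by
    intro i hi j hj
    have h1 := door_triangle _ _ _ (tri₁ i hi j hj)
    have h2 := door_triangle _ _ _ (tri₂ i hi j hj)
    have h3 : ∀ x : ZMod 2, x + x = 0 := fun x => CharTwo.add_self_eq_zero x
    have h4 := h3 (door (g i j) (g (i + 1) (j + 1)))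
    simp only [h, v]
    linear_combination h1 + h2 - h4
  have total : ∑ i ∈ Finset.range N, ∑ j ∈ Finset.range N,
      ((h i j + h i (j + 1)) + (v i j + v (i + 1) j)) = 0 :=
    Finset.sum_eq_zero fun i hi => Finset.sum_eq_zero fun j hj =>
      cell i (Finset.mem_range.mp hi) j (Finset.mem_range.mp hj)
  have split : ∑ i ∈ Finset.range N, ∑ j ∈ Finset.range N,
      ((h i j + h i (j + 1)) + (v i j + v (i + 1) j)) =
      ∑ i ∈ Finset.range N, ∑ j ∈ Finset.range N, (h i j + h i (j + 1)) +
      ∑ i ∈ Finset.range N, ∑ j ∈ Finset.range N, (v i j + v (i + 1) j) := by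
    rw [← Finset.sum_add_distrib]
    exact Finset.sum_congr rfl fun i _ => Finset.sum_add_distrib
  rw [split] at total
  have s1 : ∑ i ∈ Finset.range N, ∑ j ∈ Finset.range N, (h i j + h i (j + 1)) =
      ∑ i ∈ Finset.range N, (h i 0 + h i N) :=
    Finset.sum_congr rfl fun i _ => telescope N (h i)
  have s2 : ∑ i ∈ Finset.range N, ∑ j ∈ Finset.range N, (v i j + v (i + 1) j) =
      ∑ j ∈ Finset.range N, (v 0 j + v N j) := by
    rw [Finset.sum_comm]
    exact Finset.sum_congr rfl fun j _ => telescope N (fun i => v i j)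
  have s3 : ∑ j ∈ Finset.range N, (v 0 j + v N j) = 0 := by
    refine Finset.sum_eq_zero fun j hj => ?_
    have hj' := Finset.mem_range.mp hj
    have e1 : v 0 j = 0 := door_left _ _ (left j hj'.le) (left (j + 1) hj')
    have e2 : v N j = 0 := by
      simp only [v]
      rw [right j hj'.le, right (j + 1) hj']
      rfl
    rw [e1, e2, add_zero]
  have s4 : ∑ i ∈ Finset.range N, (h i 0 + h i N) = 1 := by
    have e1 : ∀ i ∈ Finset.range N, h i 0 + h i N = isZero (g (i + 1) 0) - isZero (g i 0) := by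
      intro i hi
      have hi' := Finset.mem_range.mp hi
      have e2 : h i N = 0 := door_top _ _ (top i hi'.le) (top (i + 1) hi')
      have e3 : h i 0 = isZero (g (i + 1) 0) - isZero (g i 0) :=
        door_bottom _ _ (bottom i hi'.le) (bottom (i + 1) hi')
      rw [e2, e3, add_zero]
    rw [Finset.sum_congr rfl e1, Finset.sum_range_sub (fun i => isZero (g i 0))]
    have e4 : g 0 0 = 0 := by
      have a1 := left 0 (Nat.zero_le _)
      have a2 := bottom 0 (Nat.zero_le _)
      revert a1 a2
      generalize g 0 0 = a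
      revert a
      decide
    rw [e4, right 0 (Nat.zero_le _)]
    decide
  rw [s1, s2, s3, s4] at total
  revert total
  decide

end Pool.Agent.Lib.MP_00e59b_an
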