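import Mathlib
import Pool.Agent.Lib.MP_00e59b_an.Defs
import Pool.Agent.Lib.MP_00e59b_an.Sperner

/-!
A set whose closure contains a (bilipschitz) square does not have Nagata dimension at most one.
-/

set_option autoImplicit false

open Set

namespace Pool.Agent.Lib.MP_00e59b_an

lemma ediam_triple_le {M : Type*} [PseudoMetricSpace M] {a b c : M} {s : ℝ}
    (hab : dist a b ≤ s) (hac : dist a c ≤ s) (hbc : dist b c ≤ s) :
    Metric.ediam ({a, b, c} : Set M) ≤ ENNReal.ofReal s := by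
  have hs : 0 ≤ s := dist_nonneg.trans hab
  rw [Metric.ediam_le_iff]
  have key : ∀ x y : M, dist x y ≤ s → edist x y ≤ ENNReal.ofReal s := by
    intro x y h
    rw [edist_dist]
    exact ENNReal.ofReal_le_ofReal h
  rintro x (rfl | rfl | rfl) y (rfl | rfl | rfl) <;> apply key <;>
    first | assumption | (rw [dist_comm]; assumption) | simpa using hs

lemma not_rainbow {M : Type*} [PseudoMetricSpace M] {X : Set M} {s : ℝ} {𝒞 : Set (Set M)}
    (H : ∀ Y ⊆ X, Metric.ediam Y ≤ ENNReal.ofReal s →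
      {C ∈ 𝒞 | (C ∩ Y).Nonempty}.encard ≤ (1 : ℕ) + 1)
    {a b c : M} (ha : a ∈ X) (hb : b ∈ X) (hc : c ∈ X)
    (hab : dist a b ≤ s) (hac : dist a c ≤ s) (hbc : dist b c ≤ s)
    {A B C : Set M} (hA : A ∈ 𝒞) (hB : B ∈ 𝒞) (hC : C ∈ 𝒞)
    (haA : a ∈ A) (hbB : b ∈ B) (hcC : c ∈ C) :
    A = B ∨ B = C ∨ A = C := by
  by_contra hne
  push Not at hne
  obtain ⟨h1, h2, h3⟩ := hne
  have hY : ({a, b, c} : Set M) ⊆ X := by
    rintro x (rfl | rfl | rfl) <;> assumption
  have h := H _ hY (ediam_triple_le hab hac hbc)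
  have hsub : ({A, B, C} : Set (Set M)) ⊆ {D ∈ 𝒞 | (D ∩ {a, b, c}).Nonempty} := by
    rintro D (rfl | rfl | rfl)
    · exact ⟨hA, a, haA, by simp⟩
    · exact ⟨hB, b, hbB, by simp⟩
    · exact ⟨hC, c, hcC, by simp⟩
  have hcard : ({A, B, C} : Set (Set M)).encard = 3 := by
    rw [Set.encard_eq_three]
    exact ⟨A, B, C, h1, h3, h2, rfl⟩
  have h4 := (Set.encard_le_encard hsub).trans h
  rw [hcard] at h4
  norm_num at h4

theorem not_nagataDimLE_one {M : Type*} [PseudoMetricSpace M] {X : Set M} {ℓ : ℝ} (hℓ : 0 < ℓ)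
    (P : ℝ → ℝ → M)
    (P1 : ∀ u v u' v', dist (P u v) (P u' v') ≤ |u - u'| + |v - v'|)
    (P2 : ∀ u v u' v', |u - u'| ≤ dist (P u v) (P u' v'))
    (P3 : ∀ u v u' v', |v - v'| ≤ dist (P u v) (P u' v'))
    (hX : ∀ u ∈ Icc 0 ℓ, ∀ v ∈ Icc 0 ℓ, P u v ∈ closure X) :
    ¬ NagataDimLE X 1 := by
  rintro ⟨c, hc, H⟩
  obtain ⟨N, hN⟩ := exists_nat_gt (4 * c + 1)
  have hN0 : (0 : ℝ) < N := by linarith
  have hN1 : 0 < N := by exact_mod_cast hN0
  set h : ℝ := ℓ / N with hh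
  have hpos : 0 < h := by positivity
  obtain ⟨𝒞, hcov, hdiam, hmult⟩ := H (4 * h) (by positivity)
  -- grid points
  have hgrid : ∀ i : ℕ, i ≤ N → (i : ℝ) * h ∈ Icc 0 ℓ := by
    intro i hi
    have hi' : (i : ℝ) ≤ N := by exact_mod_cast hi
    refine ⟨by positivity, ?_⟩
    calc (i : ℝ) * h ≤ N * h := by gcongr
      _ = ℓ := by rw [hh]; field_simp
  have hx : ∀ i j : ℕ, ∃ x : M, i ≤ N → j ≤ N → x ∈ X ∧ dist (P (i * h) (j * h)) x < h / 8 := by
    intro i j
    by_cases hij : i ≤ N ∧ j ≤ N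
    · obtain ⟨x, hx1, hx2⟩ := Metric.mem_closure_iff.mp
        (hX _ (hgrid i hij.1) _ (hgrid j hij.2)) (h / 8) (by positivity)
      exact ⟨x, fun _ _ => ⟨hx1, hx2⟩⟩
    · exact ⟨P 0 0, fun h1 h2 => absurd ⟨h1, h2⟩ hij⟩
  choose x hx using hx
  have hC : ∀ i j : ℕ, ∃ C : Set M, i ≤ N → j ≤ N → C ∈ 𝒞 ∧ x i j ∈ C := by
    intro i j
    by_cases hij : i ≤ N ∧ j ≤ N
    · obtain ⟨C, hC1, hC2⟩ := hcov (hx i j hij.1 hij.2).1
      exact ⟨C, fun _ _ => ⟨hC1, hC2⟩⟩
    · exact ⟨∅, fun h1 h2 => absurd ⟨h1, h2⟩ hij⟩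
  choose C hC using hC
  -- distances between chosen points
  have hdist : ∀ i j i' j' : ℕ, i ≤ N → j ≤ N → i' ≤ N → j' ≤ N →
      dist (x i j) (x i' j') ≤ |(i : ℝ) - i'| * h + |(j : ℝ) - j'| * h + h / 4 := by
    intro i j i' j' hi hj hi' hj'
    have e1 := (hx i j hi hj).2
    have e2 := (hx i' j' hi' hj').2
    have e3 := P1 (i * h) (j * h) (i' * h) (j' * h)
    have e4 : |(i : ℝ) * h - i' * h| = |(i : ℝ) - i'| * h := by
      rw [← sub_mul, abs_mul, abs_of_pos hpos]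
    have e5 : |(j : ℝ) * h - j' * h| = |(j : ℝ) - j'| * h := by
      rw [← sub_mul, abs_mul, abs_of_pos hpos]
    rw [e4, e5] at e3
    have e6 := dist_triangle4 (x i j) (P (i * h) (j * h)) (P (i' * h) (j' * h)) (x i' j')
    rw [dist_comm (x i j) (P _ _)] at e6
    linarith
  -- a member of the cover does not reach opposite sides
  have hfar : ∀ i j i' j' : ℕ, i ≤ N → j ≤ N → i' ≤ N → j' ≤ N → C i j = C i' j' →
      dist (P (i * h) (j * h)) (P (i' * h) (j' * h)) < N * h := by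
    intro i j i' j' hi hj hi' hj' heq
    have e1 := (hx i j hi hj).2
    have e2 := (hx i' j' hi' hj').2
    have e3 : dist (x i j) (x i' j') ≤ c * (4 * h) := by
      have m1 := (hC i j hi hj).2
      have m2 := (hC i' j' hi' hj').2
      rw [← heq] at m2
      have m3 := Metric.edist_le_ediam_of_mem m1 m2
      have m4 := m3.trans (hdiam _ (hC i j hi hj).1)
      rw [edist_dist] at m4
      exact (ENNReal.ofReal_le_ofReal_iff (by positivity)).mp m4
    have e6 := dist_triangle4 (P (i * h) (j * h)) (x i j) (x i' j') (P (i' * h) (j' * h))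
    rw [dist_comm (x i' j') (P _ _)] at e6
    have e7 : (4 * c + 1) * h < N * h := by gcongr
    nlinarith
  classical
  -- labels
  let g : ℕ → ℕ → Fin 3 := fun i j =>
    if ∃ j' ≤ N, C i j = C 0 j' then (if ∃ i' ≤ N, C i j = C i' 0 then 0 else 1) else 2
  have hg : ∀ i j i' j', C i j = C i' j' → g i j = g i' j' := by
    intro i j i' j' heq
    simp only [g, heq]
  refine sperner_square N g ?_ ?_ ?_ ?_ ?_ ?_
  · intro j hj
    have : ∃ j' ≤ N, C 0 j = C 0 j' := ⟨j, hj, rfl⟩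
    simp only [g, this, if_true]
    split_ifs <;> decide
  · intro j hj
    have : ¬ ∃ j' ≤ N, C N j = C 0 j' := by
      rintro ⟨j', hj', heq⟩
      have e1 := hfar N j 0 j' le_rfl hj (Nat.zero_le _) hj' heq
      have e2 := P2 (N * h) (j * h) ((0 : ℕ) * h) (j' * h)
      have e3 : |(N : ℝ) * h - (0 : ℕ) * h| = N * h := by
        rw [Nat.cast_zero, zero_mul, sub_zero, abs_of_pos (by positivity)]
      linarith
    simp only [g, this, if_false]
  · intro i hi
    have : ∃ i' ≤ N, C i 0 = C i' 0 := ⟨i, hi, rfl⟩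
    simp only [g, this, if_true]
    split_ifs <;> decide
  · intro i hi
    have : ¬ ∃ i' ≤ N, C i N = C i' 0 := by
      rintro ⟨i', hi', heq⟩
      have e1 := hfar i N i' 0 hi le_rfl hi' (Nat.zero_le _) heq
      have e2 := P3 (i * h) (N * h) (i' * h) ((0 : ℕ) * h)
      have e3 : |(N : ℝ) * h - (0 : ℕ) * h| = N * h := by
        rw [Nat.cast_zero, zero_mul, sub_zero, abs_of_pos (by positivity)]
      linarith
    simp only [g, this, if_false]
    split_ifs <;> decide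
  · intro i hi j hj
    have d1 := hdist i j (i + 1) j hi.le hj.le hi hj.le
    have d2 := hdist (i + 1) j (i + 1) (j + 1) hi hj.le hi hj
    have d3 := hdist i j (i + 1) (j + 1) hi.le hj.le hi hj
    push_cast at d1 d2 d3
    have a1 : |(i : ℝ) - (i + 1)| = 1 := by rw [sub_add_cancel_left]; simp
    have a2 : |(j : ℝ) - (j + 1)| = 1 := by rw [sub_add_cancel_left]; simp
    rw [a1, sub_self, abs_zero] at d1
    rw [a2, sub_self, abs_zero] at d2
    rw [a1, a2] at d3
    rcases not_rainbow hmult (hx i j hi.le hj.le).1 (hx (i + 1) j hi hj.le).1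
      (hx (i + 1) (j + 1) hi hj).1 (by linarith) (by linarith) (by linarith)
      (hC i j hi.le hj.le).1 (hC (i + 1) j hi hj.le).1 (hC (i + 1) (j + 1) hi hj).1
      (hC i j hi.le hj.le).2 (hC (i + 1) j hi hj.le).2 (hC (i + 1) (j + 1) hi hj).2 with
      e | e | e
    · exact Or.inl (hg _ _ _ _ e)
    · exact Or.inr (Or.inl (hg _ _ _ _ e))
    · exact Or.inr (Or.inr (hg _ _ _ _ e))
  · intro i hi j hj
    have d1 := hdist i j i (j + 1) hi.le hj.le hi.le hj
    have d2 := hdist i (j + 1) (i + 1) (j + 1) hi.le hj hi hj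
    have d3 := hdist i j (i + 1) (j + 1) hi.le hj.le hi hj
    push_cast at d1 d2 d3
    have a1 : |(i : ℝ) - (i + 1)| = 1 := by rw [sub_add_cancel_left]; simp
    have a2 : |(j : ℝ) - (j + 1)| = 1 := by rw [sub_add_cancel_left]; simp
    rw [a2, sub_self, abs_zero] at d1
    rw [a1, sub_self, abs_zero] at d2
    rw [a1, a2] at d3
    rcases not_rainbow hmult (hx i j hi.le hj.le).1 (hx i (j + 1) hi.le hj).1
      (hx (i + 1) (j + 1) hi hj).1 (by linarith) (by linarith) (by linarith)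
      (hC i j hi.le hj.le).1 (hC i (j + 1) hi.le hj).1 (hC (i + 1) (j + 1) hi hj).1
      (hC i j hi.le hj.le).2 (hC i (j + 1) hi.le hj).2 (hC (i + 1) (j + 1) hi hj).2 with
      e | e | e
    · exact Or.inl (hg _ _ _ _ e)
    · exact Or.inr (Or.inl (hg _ _ _ _ e))
    · exact Or.inr (Or.inr (hg _ _ _ _ e))

end Pool.Agent.Lib.MP_00e59b_an
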