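import Mathlib
import Pool.Agent.Lib.MP_00e59b_an.Deriv

/-!
The map `ff` is quasiregular on the cylinder `Om`.
-/

set_option autoImplicit false

open MeasureTheory Set
open scoped ContDiff NNReal

namespace Pool.Agent.Lib.MP_00e59b_an

/-- The axis is a null set. -/
lemma ae_ww_ne_zero : ∀ᵐ x : E 3, ww x ≠ 0 := by
  have h : volume ((LinearMap.ker (pr 1 : E 3 →ₗ[ℝ] ℝ) : Submodule ℝ (E 3)) : Set (E 3)) = 0 := by
    apply Measure.addHaar_submodule
    intro htop
    have h1 : ee 1 ∈ LinearMap.ker (pr 1 : E 3 →ₗ[ℝ] ℝ) := by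
      rw [htop]
      trivial
    have h2 : pr 1 (ee 1) = 0 := h1
    rw [pr_ee] at h2
    simp at h2
  have h3 : ∀ᵐ x : E 3, x ∉ ((LinearMap.ker (pr 1 : E 3 →ₗ[ℝ] ℝ) : Submodule ℝ (E 3)) :
      Set (E 3)) := measure_eq_zero_iff_ae_notMem.mp h
  filter_upwards [h3] with x hx h0
  apply hx
  have : x 1 = 0 := by
    have := congrArg Complex.re h0
    simpa [ww] using this
  simpa using this

lemma norm_fderiv_ff_le {x : E 3} (hx : x ∈ Om) : ‖fderiv ℝ ff x‖ ≤ 30 := by
  have h := norm_fderiv_le_of_lipschitzOn ℝ (isOpen_Om.mem_nhds hx) ff_lip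
  exact_mod_cast h

lemma continuousOn_ff : ContinuousOn ff Om := ff_lip.continuousOn

/-- Bounded measurable functions are locally integrable on an open set. -/
lemma locallyIntegrableOn_of_bound {F : Type*} [NormedAddCommGroup F] {h : E 3 → F}
    (hm : AEStronglyMeasurable h (volume.restrict Om)) {C : ℝ} (hC : ∀ x ∈ Om, ‖h x‖ ≤ C) :
    LocallyIntegrableOn h Om volume := by
  intro x hx
  obtain ⟨r, hr, hball⟩ := Metric.isOpen_iff.mp isOpen_Om x hx
  refine ⟨Metric.ball x r, mem_nhdsWithin_of_mem_nhds (Metric.ball_mem_nhds x hr), ?_⟩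
  refine IntegrableOn.of_bound measure_ball_lt_top
    (hm.mono_measure (Measure.restrict_mono hball le_rfl)) C ?_
  filter_upwards [ae_restrict_mem measurableSet_ball] with y hy
  exact hC y (hball hy)

lemma ff_coord_lip (i : Fin 3) : LipschitzOnWith 30 (fun x => ff x i) Om := by
  refine LipschitzOnWith.of_dist_le_mul fun x hx y hy => ?_
  have h1 := ff_lip.dist_le_mul x hx y hy
  refine le_trans ?_ h1
  have h2 := EuclideanSpace.dist_eq (ff x) (ff y)
  rw [h2]
  apply Real.le_sqrt_of_sq_le
  have h3 := Finset.single_le_sum (f := fun i => dist (ff x i) (ff y i) ^ 2)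
    (fun i _ => sq_nonneg _) (Finset.mem_univ i)
  exact h3

/-- Integration by parts for the coordinates of `ff`. -/
lemma weak_coord (i : Fin 3) {φ : E 3 → ℝ} (hφ : ContDiff ℝ ∞ φ) (hc : HasCompactSupport φ)
    (hsupp : tsupport φ ⊆ Om) (v : E 3) :
    ∫ x, fderiv ℝ φ x v * ff x i = - ∫ x, φ x * (fderiv ℝ ff x v) i := by
  obtain ⟨g, hg, hgf⟩ := (ff_coord_lip i).extend_real
  obtain ⟨D, hD⟩ : ∃ D, LipschitzWith D φ :=
    ContDiff.lipschitzWith_of_hasCompactSupport hc hφ (by simp)
  have key := hg.integral_lineDeriv_mul_eq (μ := volume) hD hc v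
  -- left-hand side
  have e1 : ∫ x, fderiv ℝ φ x v * ff x i = - ∫ x, lineDeriv ℝ φ x (-v) * g x := by
    rw [← integral_neg]
    congr 1
    funext x
    rw [((hφ.differentiable (by simp)) x).lineDeriv_eq_fderiv, map_neg]
    by_cases hx : x ∈ Om
    · rw [← hgf hx]
      ring
    · have h0 : fderiv ℝ φ x = 0 := by
        have : x ∉ tsupport φ := fun h => hx (hsupp h)
        exact Function.notMem_support.mp fun h => this (support_fderiv_subset ℝ h)
      rw [h0]
      simp
  have e2 : ∫ x, lineDeriv ℝ g x v * φ x = ∫ x, φ x * (fderiv ℝ ff x v) i := by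
    apply integral_congr_ae
    filter_upwards [ae_ww_ne_zero] with x hx0
    by_cases hx : x ∈ Om
    · have h1 : HasFDerivAt (fun x => ff x i) (pr i ∘L fderiv ℝ ff x) x :=
        (pr i).hasFDerivAt.comp x (differentiableAt_ff hx0).hasFDerivAt
      have h2 : g =ᶠ[nhds x] fun x => ff x i := by
        filter_upwards [isOpen_Om.mem_nhds hx] with y hy
        exact (hgf hy).symm
      have h3 : HasFDerivAt g (pr i ∘L fderiv ℝ ff x) x := h1.congr_of_eventuallyEq h2
      rw [h3.differentiableAt.lineDeriv_eq_fderiv, h3.fderiv]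
      change (fderiv ℝ ff x v) i * φ x = _
      ring
    · have h0 : φ x = 0 := by
        have : x ∉ tsupport φ := fun h => hx (hsupp h)
        exact image_eq_zero_of_notMem_tsupport this
      rw [h0]
      simp
  rw [e1, ← key, e2]

lemma aestronglyMeasurable_ff : AEStronglyMeasurable ff (volume.restrict Om) :=
  continuousOn_ff.aestronglyMeasurable isOpen_Om.measurableSet

lemma measurable_fderiv_ff : Measurable (fderiv ℝ ff) := measurable_fderiv ℝ ff

lemma hasWeakDeriv_ff : HasWeakDeriv Om ff (fderiv ℝ ff) where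
  locallyIntegrableOn := continuousOn_ff.locallyIntegrableOn isOpen_Om.measurableSet
  locallyIntegrableOn_deriv :=
    locallyIntegrableOn_of_bound measurable_fderiv_ff.aestronglyMeasurable
      (fun x hx => norm_fderiv_ff_le hx)
  integral_eq := by
    intro φ hφ hc hsupp v
    -- integrability of the two sides
    have hK : IsCompact (tsupport φ) := hc
    have i1 : Integrable (fun x => fderiv ℝ φ x v • ff x) volume := by
      have hs : Function.support (fun x => fderiv ℝ φ x v • ff x) ⊆ tsupport φ := by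
        intro x hx
        by_contra hx'
        apply hx
        have h0 : fderiv ℝ φ x = 0 :=
          Function.notMem_support.mp fun h => hx' (support_fderiv_subset ℝ h)
        simp [h0]
      rw [← integrableOn_iff_integrable_of_support_subset hs]
      refine ContinuousOn.integrableOn_compact hK ?_
      have hcont : ContinuousOn (fun x => fderiv ℝ φ x v) (tsupport φ) :=
        ((hφ.continuous_fderiv (by simp)).clm_apply continuous_const).continuousOn
      exact hcont.smul (continuousOn_ff.mono hsupp)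
    have i2 : Integrable (fun x => φ x • fderiv ℝ ff x v) volume := by
      have hs : Function.support (fun x => φ x • fderiv ℝ ff x v) ⊆ tsupport φ := by
        intro x hx
        by_contra hx'
        apply hx
        have h0 : φ x = 0 := image_eq_zero_of_notMem_tsupport hx'
        simp [h0]
      rw [← integrableOn_iff_integrable_of_support_subset hs]
      obtain ⟨B, hB⟩ := hK.exists_bound_of_continuousOn hφ.continuous.continuousOn
      refine IntegrableOn.of_bound hK.measure_lt_top ?_ (B * (30 * ‖v‖)) ?_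
      · refine AEStronglyMeasurable.smul hφ.continuous.aestronglyMeasurable ?_
        exact (measurable_fderiv_apply_const ℝ ff v).aestronglyMeasurable
      · filter_upwards [ae_restrict_mem hK.measurableSet] with x hx
        rw [norm_smul]
        have h1 := hB x hx
        have h2 := (fderiv ℝ ff x).le_of_opNorm_le (norm_fderiv_ff_le (hsupp hx)) v
        have h3 : 0 ≤ B := (norm_nonneg _).trans h1
        gcongr
    ext i
    have e1 : (∫ x, fderiv ℝ φ x v • ff x) i = ∫ x, fderiv ℝ φ x v * ff x i :=
      ((pr i).integral_comp_comm i1).symm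
    have e2 : (∫ x, φ x • fderiv ℝ ff x v) i = ∫ x, φ x * (fderiv ℝ ff x v) i :=
      ((pr i).integral_comp_comm i2).symm
    rw [PiLp.neg_apply, e1, e2]
    exact weak_coord i hφ hc hsupp v

theorem isQuasiregular_ff : IsQuasiregular Om ff := by
  refine ⟨continuousOn_ff, fderiv ℝ ff, hasWeakDeriv_ff, ?_, ?_, ?_⟩
  · exact (continuousOn_ff.norm.pow 3).locallyIntegrableOn isOpen_Om.measurableSet
  · refine locallyIntegrableOn_of_bound (C := 30 ^ 3) ?_ ?_
    · exact (measurable_fderiv_ff.norm.pow_const 3).aestronglyMeasurable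
    · intro x hx
      rw [norm_pow, norm_norm]
      have := norm_fderiv_ff_le hx
      gcongr
  · let c : ℝ := 2 * (Real.exp (-1) / 4) ^ 2
    have hc : 0 < c := by positivity
    refine ⟨max 1 (30 ^ 3 / c), le_max_left _ _, ?_⟩
    filter_upwards [ae_restrict_mem isOpen_Om.measurableSet, ae_restrict_of_ae ae_ww_ne_zero]
      with x hx hx0
    rw [det_fderiv_ff hx0]
    have h1 : ‖fderiv ℝ ff x‖ ^ 3 ≤ 30 ^ 3 := by
      have := norm_fderiv_ff_le hx
      gcongr
    have h2 : c ≤ 2 * ‖Q' (zeta x)‖ ^ 2 := by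
      have h3 : Real.exp (-1) / 4 ≤ ‖Q' (zeta x)‖ := le_norm_Q' (abs_uu_le hx)
      have h4 : (Real.exp (-1) / 4) ^ 2 ≤ ‖Q' (zeta x)‖ ^ 2 := by gcongr
      simp only [c]
      linarith
    calc ‖fderiv ℝ ff x‖ ^ 3 ≤ 30 ^ 3 / c * c := by
          rw [div_mul_cancel₀ _ hc.ne']
          exact h1
      _ ≤ max 1 (30 ^ 3 / c) * (2 * ‖Q' (zeta x)‖ ^ 2) := by
          gcongr
          exact le_max_right _ _

end Pool.Agent.Lib.MP_00e59b_an
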